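import Pool.Agent.Q70.UeC

/-!
# No syndetic set is a weak interpolation set of order 2 for uniquely ergodic systems

The definitions `TDS`, `IsWeakInterpolationSet` and `Syndetic` are in `Pool.Agent.Q70.WeakInterp`,
and `TDS.UniquelyErgodic` is in `Pool.Agent.Q70.UeC`.
-/

set_option autoImplicit false

namespace Pool.Agent.Results.MP_0c3956_an.NotSyndetic

open MeasureTheory Set Filter Topology Q70.Ue Q70.WeakInterp
open scoped ENNReal NNReal

universe u

/-- the angle used on the window number `j` -/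
noncomputable def ang (j : ℕ) : ℝ := TopologicalSpace.denseSeq ℝ j.unpair.1

theorem ang_dense (N : ℕ) : Dense {r : ℝ | ∃ j ∈ (univ : Set ℕ), N ≤ j ∧ ang j = r} := by
  refine (TopologicalSpace.denseRange_denseSeq ℝ).mono ?_
  rintro _ ⟨m, rfl⟩
  refine ⟨Nat.pair m N, mem_univ _, Nat.right_le_pair m N, ?_⟩
  simp [ang]

/-- the function which is not interpolated. -/
noncomputable def fn (L : ℕ) (n : ℕ) : ℕ := pat L 2 ((n - (Nat.sqrt n) ^ 2 : ℕ) * ang (Nat.sqrt n))

theorem fn_window (L j i : ℕ) (hi : i ≤ j) : fn L (j ^ 2 + i) = pat L 2 ((i : ℝ) * ang j) := by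
  have hs : Nat.sqrt (j ^ 2 + i) = j := by
    rw [pow_two]
    exact Nat.sqrt_add_eq j (by omega)
  unfold fn
  rw [hs]
  simp

/-- **Q1 answered in the negative**: no syndetic set of positive integers is a weak interpolation
set of order `2` for the class of uniquely ergodic systems. -/
theorem result (S : Set ℕ) (hS : Syndetic S) :
    ¬ IsWeakInterpolationSet.{u} TDS.UniquelyErgodic 2 S := by
  intro hW
  obtain ⟨L₀, hL₀⟩ := hS
  set L := L₀ + 1 with hL
  have hLpos : 0 < L := by omega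
  obtain ⟨A, hUE, x, -, F, hF, hFx⟩ := hW (fn L) (fun n _ => pat_lt (by norm_num) _)
  letI : MeasurableSpace A.X := borel A.X
  haveI : BorelSpace A.X := ⟨rfl⟩
  obtain ⟨μ, ⟨hμp, hμT⟩, huniq⟩ := hUE
  have hT := A.continuous_T
  have hmp : MeasurePreserving A.T μ μ := ⟨hT.measurable, hμT⟩
  have hμ : UE A.T μ := ⟨hμp, hμT, fun ν h1 h2 => huniq ν ⟨h1, h2⟩⟩
  set M : ℕ := L * 2 ^ L with hM
  have hM0 : 0 < M := Nat.mul_pos hLpos (by positivity)
  have hM' : (0 : ℝ) < M := by exact_mod_cast hM0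
  have hL' : (0 : ℝ) < L := by exact_mod_cast hLpos
  -- the angle
  obtain ⟨r, hrV, hrB, s, hs, hsa⟩ := exists_angle univ ang (fun j => j + 1) ang_dense
    (V := Metric.ball (1 / M : ℝ) (1 / (8 * M * L))) Metric.isOpen_ball
    ⟨_, Metric.mem_ball_self (by positivity)⟩ (bad_countable hmp)
  have hrV' : |r - 1 / M| < 1 / (8 * M * L) := by
    rwa [Metric.mem_ball, Real.dist_eq] at hrV
  have hprod := prod_UE hT hμ hmp hrB
  -- a word avoided with positive probability
  let O : ℕ → Set A.X := fun i => {y | ∀ q < L, F (A.T^[q] y) ≠ ((i / 2 ^ q % 2 : ℕ) : ℂ)}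
  have hOo : ∀ i, IsOpen (O i) := by
    intro i
    have h1 : O i = ⋂ q ∈ Finset.range L, {y | F (A.T^[q] y) ≠ ((i / 2 ^ q % 2 : ℕ) : ℂ)} := by
      ext y
      simp [O]
    rw [h1]
    refine isOpen_biInter_finset fun q _ => ?_
    exact isOpen_ne.preimage (hF.comp (hT.iterate q))
  have hOcov : ∀ y : A.X, ∃ i < 2 ^ L, y ∈ O i := by
    intro y
    classical
    obtain ⟨i, hi, h⟩ := exists_digits (k := 2) (by norm_num) L
      (fun q => if F (A.T^[q] y) = 0 then 1 else 0) (fun q => by split_ifs <;> norm_num)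
    refine ⟨i, hi, fun q hq => ?_⟩
    rw [h q hq]
    split_ifs with h0
    · rw [h0]; norm_num
    · simpa using h0
  obtain ⟨i, hi, hOi⟩ : ∃ i < 2 ^ L, 0 < μ (O i) := by
    by_contra hne
    push Not at hne
    have h1 : μ (⋃ i ∈ Finset.range (2 ^ L), O i) = 0 := by
      refine le_antisymm ((measure_biUnion_finset_le _ _).trans ?_) bot_le
      rw [Finset.sum_eq_zero]
      intro i hi
      exact nonpos_iff_eq_zero.1 (hne i (by simpa using hi))
    have h2 : (⋃ i ∈ Finset.range (2 ^ L), O i) = univ := by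
      rw [eq_univ_iff_forall]
      intro y
      obtain ⟨i, hi, hy⟩ := hOcov y
      exact mem_iUnion₂.2 ⟨i, Finset.mem_range.2 hi, hy⟩
    rw [h2, measure_univ] at h1
    exact one_ne_zero h1
  -- visits of the product system
  let c : ℝ := (L * i + 3 / 8) / M
  let U : Set 𝕋 := Metric.ball (c : 𝕋) (1 / (8 * M))
  have hU : 0 < (AddCircle.haarAddCircle (T := 1)) U :=
    Metric.isOpen_ball.measure_pos _ ⟨_, Metric.mem_ball_self (by positivity)⟩
  have hOU : 0 < (μ.prod (AddCircle.haarAddCircle (T := 1))).real (O i ×ˢ U) := by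
    rw [Measure.real, Measure.prod_prod]
    exact ENNReal.toReal_pos (mul_ne_zero hOi.ne' hU.ne')
      (ENNReal.mul_ne_top (measure_ne_top _ _) (measure_ne_top _ _))
  set m₀ := (μ.prod (AddCircle.haarAddCircle (T := 1))).real (O i ×ˢ U) with hm₀
  have hvis := open_visits (rot_continuous hT (r : 𝕋)) hprod
    (fun j => (A.T^[(s j) ^ 2] x, (0 : 𝕋))) (fun j => s j + 1)
    (tendsto_atTop_mono (fun j => Nat.le_succ _) hs.tendsto_atTop)
    (fun j => Nat.succ_pos _) ((hOo i).prod (Metric.isOpen_ball : IsOpen U)) (δ := m₀ / 2)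
    (by positivity) (by linarith)
  -- a good window
  have hbig : ∀ᶠ j : ℕ in atTop, (L : ℝ) < m₀ / 2 * ((s j + 1 : ℕ) : ℝ) := by
    have h1 : Tendsto (fun j => ((s j + 1 : ℕ) : ℝ)) atTop atTop :=
      tendsto_natCast_atTop_atTop.comp
        (tendsto_atTop_mono (fun j => Nat.le_succ _) hs.tendsto_atTop)
    have h2 := h1.const_mul_atTop (show (0 : ℝ) < m₀ / 2 by positivity)
    exact h2.eventually_gt_atTop _
  have hsmall : ∀ᶠ j : ℕ in atTop, 1 / ((j : ℝ) + 1) < 1 / (8 * M) := by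
    have h1 : Tendsto (fun j : ℕ => 1 / ((j : ℝ) + 1)) atTop (𝓝 0) :=
      tendsto_one_div_add_atTop_nhds_zero_nat
    exact h1.eventually (gt_mem_nhds (by positivity))
  obtain ⟨j, ⟨hj1, hj2⟩, hj3, hj4⟩ :=
    ((hvis.and hbig).and (hsmall.and (eventually_ge_atTop 1))).exists
  set N := (s j) ^ 2 with hN
  have hcnt : L < cnt (rot A.T (r : 𝕋)) (A.T^[N] x, 0) (s j + 1) (O i ×ˢ U) := by
    exact Nat.cast_lt.1 (hj2.trans hj1)
  unfold cnt at hcnt
  obtain ⟨p, hp1, hp2⟩ := exists_small hcnt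
  rw [rot_iterate] at hp2
  obtain ⟨hpO, hpU⟩ := hp2
  simp only at hpO hpU
  have hsj1 : 1 ≤ s j := le_trans hj4 (hs.id_le j)
  have hN1 : 1 ≤ N := Nat.one_le_pow _ _ hsj1
  obtain ⟨n, hnS, hn1, hn2⟩ := hL₀ (N + p) (by omega)
  set q := n - (N + p) with hq
  have hqL : q < L := by omega
  have hnq : n = (s j) ^ 2 + (p + q) := by omega
  have hpq : p + q ≤ s j := by omega
  have hval := hFx n hnS
  rw [hnq, fn_window L (s j) (p + q) hpq] at hval
  -- the value of the pattern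
  have hpU' : (((p : ℝ) * r : ℝ) : 𝕋) ∈ Metric.ball (c : 𝕋) (1 / (8 * M)) := by
    have h1 : (((p : ℝ) * r : ℝ) : 𝕋) = p • (r : 𝕋) := by
      rw [← AddCircle.coe_nsmul, nsmul_eq_mul]
    rw [h1]
    exact hpU
  obtain ⟨z, hz⟩ := ball_lift hpU'
  have hδ : |(q : ℝ) * (r - 1 / M) + ((p + q : ℕ) : ℝ) * (ang (s j) - r)| < 1 / (4 * M) := by
    have h1 : |(q : ℝ) * (r - 1 / M)| ≤ 1 / (8 * M) := by
      rw [abs_mul, Nat.abs_cast]
      calc (q : ℝ) * |r - 1 / M| ≤ L * (1 / (8 * M * L)) := by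
            refine mul_le_mul ?_ hrV'.le (abs_nonneg _) hL'.le
            exact_mod_cast hqL.le
        _ = 1 / (8 * M) := by field_simp
    have h2 : |((p + q : ℕ) : ℝ) * (ang (s j) - r)| < 1 / (8 * M) := by
      rw [abs_mul, Nat.abs_cast]
      have h3 := (hsa j).2
      calc ((p + q : ℕ) : ℝ) * |ang (s j) - r| ≤ ((s j + 1 : ℕ) : ℝ) * |r - ang (s j)| := by
            rw [abs_sub_comm]
            refine mul_le_mul_of_nonneg_right ?_ (abs_nonneg _)
            exact_mod_cast (by omega : p + q ≤ s j + 1)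
        _ < 1 / ((j : ℝ) + 1) := h3
        _ < 1 / (8 * M) := hj3
    calc |(q : ℝ) * (r - 1 / M) + ((p + q : ℕ) : ℝ) * (ang (s j) - r)|
        ≤ |(q : ℝ) * (r - 1 / M)| + |((p + q : ℕ) : ℝ) * (ang (s j) - r)| := abs_add_le _ _
      _ < 1 / (8 * M) + 1 / (8 * M) := add_lt_add_of_le_of_lt h1 h2
      _ = 1 / (4 * M) := by field_simp; norm_num
  have hpat := pat_eq (L := L) (k := 2) hLpos (by norm_num) hi hqL hz hδ
  have harg : (p : ℝ) * r + q / (L * 2 ^ L : ℕ) + ((q : ℝ) * (r - 1 / M) +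
      ((p + q : ℕ) : ℝ) * (ang (s j) - r)) = ((p + q : ℕ) : ℝ) * ang (s j) := by
    rw [← hM]
    push_cast
    field_simp
    ring
  rw [harg] at hpat
  rw [hpat] at hval
  have h9 := hpO q hqL
  apply h9
  rw [← hval, ← Function.iterate_add_apply, ← Function.iterate_add_apply]
  have h10 : q + p + N = (s j) ^ 2 + (p + q) := by omega
  rw [h10]

end Pool.Agent.Results.MP_0c3956_an.NotSyndetic
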